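import Pool.Agent.W36.GK.K14
import Pool.Agent.W36.GK.K18

/-! Functions all of whose restrictions to the residue classes have small Gowers norms. -/

set_option autoImplicit false

namespace Pool.Agent.W36.GL

open Finset Pool.Agent.W36.GU Pool.Agent.W36.GV Pool.Agent.W36.GK

theorem forms_small' {ι : Type} [Fintype ι] {E : ℕ} (Λ : ι → Fin E → ℤ) (h0 : ∀ i, Λ i ≠ 0) (hΛ : ∀ i j, i ≠ j → Indep (Λ i) (Λ j)) (i0 : ι)
    {ε : ℝ} (hε : 0 < ε) : ∃ δ : ℝ, 0 < δ ∧ ∃ X0 : ℕ, ∀ X : ℕ, X0 ≤ X → ∀ c : ι → ℤ, ∀ P P' : Fin E → ℤ,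
    (∀ j, P' j - P j ≤ X) → ∀ g : ι → ℤ → ℝ, (∀ i, B1 (g i)) → Sup (g i0) X →
    GN (Fintype.card ι + 1) (g i0) X ≤ δ * (X : ℝ) ^ (Fintype.card ι + 2) →
    |∑ x ∈ box P P', ∏ i, g i (dot (Λ i) x + c i)| ≤ ε * (X : ℝ) ^ E := by
  set e := Fintype.equivFin ι with he
  obtain ⟨δ, hδ, X0, h⟩ := forms_small (fun j => Λ (e.symm j)) (fun j => h0 _) (fun i j hij => hΛ _ _ (fun h => hij (e.symm.injective h))) (e i0) hε
  refine ⟨δ, hδ, X0, fun X hX c P P' hP g hg hs hG => ?_⟩
  have h1 := h X hX (fun j => c (e.symm j)) P P' hP (fun j => g (e.symm j)) (fun j => hg _) (by simpa using hs) (by simpa using hG)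
  refine le_trans (le_of_eq ?_) h1
  congr 1
  apply sum_congr rfl; intro x _
  exact (Equiv.prod_comp e.symm (fun i => g i (dot (Λ i) x + c i))).symm

theorem Dl_prod (k : ℕ) : ∀ (F : ℤ → ℝ) (t : Fin k → ℤ) (n : ℤ),
    Dl k F t n = ∏ ω : Fin k → Bool, F (n + ∑ l, if ω l then t l else 0) := by
  induction k with
  | zero =>
    intro F t n
    rw [Dl]
    simp
  | succ k ih =>
    intro F t n
    rw [Dl, ih, ← Equiv.prod_comp (Fin.consEquiv (fun _ : Fin (k + 1) => Bool)) (fun ω => F (n + ∑ l, if ω l then t l else 0)),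
      Fintype.prod_prod_type, Fintype.prod_bool, ← prod_mul_distrib]
    apply prod_congr rfl
    intro ω _
    simp only [Fin.consEquiv, Equiv.coe_fn_mk, Fin.sum_univ_succ, Fin.cons_zero, Fin.cons_succ, if_true, Bool.false_eq_true, if_false, zero_add]
    unfold De
    rw [mul_comm]
    congr 2
    have : ∀ l, Fin.tail t l = t l.succ := fun l => rfl
    simp only [this]
    ring

/-- the forms of the Gowers norm -/
def gf (k : ℕ) (ω : Fin k → Bool) : Fin (k + 1) → ℤ := Fin.cons 1 (fun l => if ω l then 1 else 0)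

theorem gf_zero {k : ℕ} (ω : Fin k → Bool) : gf k ω 0 = 1 := by unfold gf; rw [Fin.cons_zero]

theorem gf_succ {k : ℕ} (ω : Fin k → Bool) (l : Fin k) : gf k ω l.succ = if ω l then 1 else 0 := by unfold gf; rw [Fin.cons_succ]

theorem gf_ne {k : ℕ} (ω : Fin k → Bool) : gf k ω ≠ 0 := by
  intro h
  have := congrFun h 0
  rw [gf_zero] at this
  simp at this

theorem gf_indep {k : ℕ} {ω ω' : Fin k → Bool} (h : ω ≠ ω') : Indep (gf k ω) (gf k ω') := by
  intro a b hab
  have h0 := congrFun hab 0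
  simp only [Pi.smul_apply, gf_zero, smul_eq_mul, mul_one] at h0
  subst h0
  obtain ⟨l, hl⟩ := Function.ne_iff.1 h
  have h1 := congrFun hab l.succ
  simp only [Pi.smul_apply, gf_succ, smul_eq_mul] at h1
  cases h2 : ω l <;> cases h3 : ω' l
  · rw [h2, h3] at hl; exact absurd rfl hl
  · rw [h2, h3] at h1
    have h4 : a = 0 := by simpa using h1.symm
    exact ⟨h4, h4⟩
  · rw [h2, h3] at h1
    have h4 : a = 0 := by simpa using h1
    exact ⟨h4, h4⟩
  · rw [h2, h3] at hl; exact absurd rfl hl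

theorem GN_box (k : ℕ) (F : ℤ → ℝ) (X : ℕ) :
    GN k F X = ∑ x ∈ box (Fin.cons 0 (fun _ => -(X : ℤ) - 1) : Fin (k + 1) → ℤ) (fun _ => (X : ℤ)), ∏ ω : Fin k → Bool, F (dot (gf k ω) x) := by
  have h1 : GN k F X = ∑ t ∈ bx k X, ∑ n ∈ Icc (1 : ℤ) X, ∏ ω : Fin k → Bool, F (n + ∑ l, if ω l then t l else 0) := by
    have h2 := GN_Dl 0 k X F
    rw [zero_add] at h2
    rw [h2]
    apply sum_congr rfl; intro t _
    unfold GN
    apply sum_congr rfl; intro n _
    rw [Dl_prod]
  rw [h1, ← sum_product']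
  apply sum_nbij' (fun q : (Fin k → ℤ) × ℤ => (Fin.cons q.2 q.1 : Fin (k + 1) → ℤ)) (fun x => (Fin.tail x, x 0))
  · rintro ⟨t, n⟩ hq
    rw [mem_product, mem_bx, mem_Icc] at hq
    rw [mem_box]
    intro j
    refine Fin.cases ?_ (fun j => ?_) j
    · simp only [Fin.cons_zero]
      simp only at hq
      omega
    · simp only [Fin.cons_succ]
      have h3 : -(X : ℤ) ≤ t j ∧ t j ≤ X := abs_le.1 (hq.1 j)
      constructor <;> omega
  · intro x hx
    rw [mem_box] at hx
    rw [mem_product, mem_bx, mem_Icc]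
    refine ⟨fun j => ?_, ?_⟩
    · have := hx j.succ
      simp only [Fin.cons_succ] at this
      show |x j.succ| ≤ X
      rw [abs_le]
      constructor <;> omega
    · have := hx 0
      simp only [Fin.cons_zero] at this
      simp only
      omega
  · rintro ⟨t, n⟩ _; simp [Fin.tail_cons]
  · intro x _; exact Fin.cons_self_tail x
  · rintro ⟨t, n⟩ _
    apply prod_congr rfl
    intro ω _
    congr 1
    unfold dot
    rw [Fin.sum_univ_succ, gf_zero, Fin.cons_zero, one_mul]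
    congr 1
    apply sum_congr rfl; intro l _
    rw [gf_succ, Fin.cons_succ]
    split_ifs <;> simp

/-- splitting a box into residue classes -/
theorem box_split {E D : ℕ} (hD : 1 ≤ D) (P P' : Fin E → ℤ) (Φ : (Fin E → ℤ) → ℝ) :
    ∑ x ∈ box P P', Φ x = ∑ ρ ∈ Fintype.piFinset (fun _ : Fin E => Ico (0 : ℤ) D),
      ∑ y ∈ box (fun j => (P j - ρ j) / D) (fun j => (P' j - ρ j) / D), Φ (fun j => D * y j + ρ j) := by
  have hD0 : (0 : ℤ) < D := by exact_mod_cast hD
  rw [← sum_fiberwise_of_maps_to (t := Fintype.piFinset (fun _ : Fin E => Ico (0 : ℤ) D)) (g := fun x : Fin E → ℤ => fun j => x j % (D : ℤ))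
    (fun x _ => by
      rw [Fintype.mem_piFinset]
      intro j
      rw [mem_Ico]
      exact ⟨Int.emod_nonneg _ hD0.ne', Int.emod_lt_of_pos _ hD0⟩)]
  apply sum_congr rfl
  intro ρ hρ
  rw [Fintype.mem_piFinset] at hρ
  apply sum_nbij' (fun x j => x j / (D : ℤ)) (fun y j => D * y j + ρ j)
  · intro x hx
    rw [mem_filter, mem_box] at hx
    rw [mem_box]
    intro j
    have h1 : x j % (D : ℤ) = ρ j := congrFun hx.2 j
    have h2 := Int.emod_add_mul_ediv (x j) D
    rw [h1] at h2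
    have h3 := hx.1 j
    constructor
    · rw [Int.ediv_lt_iff_lt_mul hD0]
      nlinarith
    · rw [Int.le_ediv_iff_mul_le hD0]
      nlinarith
  · intro y hy
    rw [mem_box] at hy
    rw [mem_filter, mem_box]
    refine ⟨fun j => ?_, ?_⟩
    · have h1 := hy j
      constructor
      · have := (Int.ediv_lt_iff_lt_mul hD0).1 h1.1
        nlinarith
      · have := (Int.le_ediv_iff_mul_le hD0).1 h1.2
        nlinarith
    · ext j
      have h1 := hρ j
      rw [mem_Ico] at h1
      show (D * y j + ρ j) % (D : ℤ) = ρ j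
      rw [add_comm, Int.add_mul_emod_self_left]
      exact Int.emod_eq_of_lt h1.1 h1.2
  · intro x hx
    rw [mem_filter] at hx
    ext j
    have h1 : x j % (D : ℤ) = ρ j := congrFun hx.2 j
    have h2 := Int.emod_add_mul_ediv (x j) D
    rw [h1] at h2
    linarith
  · intro y hy
    ext j
    have h1 := hρ j
    rw [mem_Ico] at h1
    show (D * y j + ρ j) / (D : ℤ) = y j
    rw [add_comm, Int.add_mul_ediv_left _ _ hD0.ne', Int.ediv_eq_zero_of_lt h1.1 h1.2, zero_add]
  · intro x hx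
    rw [mem_filter] at hx
    congr 1
    ext j
    have h1 : x j % (D : ℤ) = ρ j := congrFun hx.2 j
    have h2 := Int.emod_add_mul_ediv (x j) D
    rw [h1] at h2
    linarith

end Pool.Agent.W36.GL
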