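import Pool.Agent.W36.GL.L1

/-! Functions all of whose restrictions to the residue classes have small Gowers norms: the norms of the functions. -/

set_option autoImplicit false

namespace Pool.Agent.W36.GL

open Finset Pool.Agent.W36.GU Pool.Agent.W36.GV Pool.Agent.W36.GK

/-- the restrictions to the residue classes modulo `D` -/
def Rs (F0 : Set (ℤ → ℝ)) (D : ℕ) : Set (ℤ → ℝ) :=
  {g | ∃ f ∈ F0, ∃ c : ℤ, -(D : ℤ) < c ∧ c ≤ 0 ∧ g = fun n => f (D * n + c)}

theorem win_res (f : ℤ → ℝ) {D : ℕ} (hD : 1 ≤ D) (M N : ℕ) {c : ℤ} (hc : c ≤ 0) (n : ℤ) :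
    win M N f (D * n + c) = win ((M - c) / D).toNat ((N - c) / D).toNat (fun n => f (D * n + c)) n := by
  have hD0 : (0 : ℤ) < D := by exact_mod_cast hD
  have hM : (0 : ℤ) ≤ (M - c) / D := Int.ediv_nonneg (by have : (0 : ℤ) ≤ M := Int.natCast_nonneg _; linarith) hD0.le
  have hN : (0 : ℤ) ≤ (N - c) / D := Int.ediv_nonneg (by have : (0 : ℤ) ≤ N := Int.natCast_nonneg _; linarith) hD0.le
  unfold win
  rw [Int.toNat_of_nonneg hM, Int.toNat_of_nonneg hN]
  have e1 : ((M : ℤ) < D * n + c) ↔ ((M - c) / D < n) := by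
    rw [Int.ediv_lt_iff_lt_mul hD0]
    constructor <;> intro h <;> linarith
  have e2 : (D * n + c ≤ (N : ℤ)) ↔ (n ≤ (N - c) / D) := by
    rw [Int.le_ediv_iff_mul_le hD0]
    constructor <;> intro h <;> linarith
  simp only [e1, e2]

theorem dot_lin {E : ℕ} (a y ρ : Fin E → ℤ) (D : ℤ) : dot a (fun j => D * y j + ρ j) = D * dot a y + dot a ρ := by
  unfold dot
  rw [mul_sum, ← sum_add_distrib]
  apply sum_congr rfl; intro j _; ring

theorem ediv_sub_le {a b : ℤ} {D : ℕ} (hD : 1 ≤ D) {m : ℕ} (h : b - a ≤ m) : b / (D : ℤ) - a / (D : ℤ) ≤ m := by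
  have hD0 : (0 : ℤ) < D := by exact_mod_cast hD
  have hD1 : (1 : ℤ) ≤ D := by exact_mod_cast hD
  have h1 : b ≤ a + m * D := by
    have : (m : ℤ) * 1 ≤ m * D := mul_le_mul_of_nonneg_left hD1 (Int.natCast_nonneg _)
    linarith
  have h2 := Int.ediv_le_ediv hD0 h1
  rw [Int.add_mul_ediv_right _ _ hD0.ne'] at h2
  linarith

theorem prog_small {F0 : Set (ℤ → ℝ)} (hB : ∀ f ∈ F0, B1 f) {D : ℕ} (hD : 1 ≤ D) (h : ∀ m : ℕ, Sm (m + 1) (Rs F0 D)) (k : ℕ) : Sm k F0 := by
  intro ε hε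
  have hD0 : (0 : ℤ) < D := by exact_mod_cast hD
  have hDR : (0 : ℝ) < D := by exact_mod_cast hD
  obtain ⟨δ, hδ, X1, hfs⟩ := forms_small' (gf k) gf_ne (fun _ _ hij => gf_indep hij) (fun _ => false)
    (ε := ε / ((D : ℝ) ^ (k + 1) * 3 ^ (k + 1))) (by positivity)
  obtain ⟨X2, hSm⟩ := h (Fintype.card (Fin k → Bool)) δ hδ
  refine ⟨X1 + X2 + D + 1, fun X hX f hf M N hMN hN => ?_⟩
  have hX1 : 1 ≤ X := by omega
  rw [GN_box, box_split hD]
  refine (le_abs_self _).trans ((abs_sum_le_sum_abs _ _).trans ?_)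
  have key : ∀ ρ ∈ Fintype.piFinset (fun _ : Fin (k + 1) => Ico (0 : ℤ) D),
      |∑ y ∈ box (fun j => ((Fin.cons 0 (fun _ => -(X : ℤ) - 1) : Fin (k + 1) → ℤ) j - ρ j) / D) (fun j => ((X : ℤ) - ρ j) / D),
        ∏ ω : Fin k → Bool, win M N f (dot (gf k ω) (fun j => D * y j + ρ j))| ≤
      ε / ((D : ℝ) ^ (k + 1) * 3 ^ (k + 1)) * ((3 * X : ℕ) : ℝ) ^ (k + 1) := by
    intro ρ _
    set e : (Fin k → Bool) → ℤ := fun ω => dot (gf k ω) ρ with he
    set q : (Fin k → Bool) → ℤ := fun ω => -((-e ω) / D) with hq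
    set c : (Fin k → Bool) → ℤ := fun ω => -((-e ω) % D) with hc
    have hqc : ∀ ω, e ω = D * q ω + c ω := by
      intro ω
      have := Int.emod_add_mul_ediv (-e ω) D
      simp only [hq, hc]
      linarith
    have hc1 : ∀ ω, -(D : ℤ) < c ω ∧ c ω ≤ 0 := by
      intro ω
      have h1 := Int.emod_nonneg (-e ω) hD0.ne'
      have h2 := Int.emod_lt_of_pos (-e ω) hD0
      simp only [hc]
      constructor <;> linarith
    set g : (Fin k → Bool) → ℤ → ℝ := fun ω => win ((M - c ω) / D).toNat ((N - c ω) / D).toNat (fun n => f (D * n + c ω)) with hg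
    have hgR : ∀ ω, (fun n => f (D * n + c ω)) ∈ Rs F0 D := fun ω => ⟨f, hf, c ω, (hc1 ω).1, (hc1 ω).2, rfl⟩
    have hM' : ∀ ω, ((M - c ω) / D).toNat ≤ ((N - c ω) / D).toNat := by
      intro ω
      apply Int.toNat_le_toNat
      apply Int.ediv_le_ediv hD0
      have : (M : ℤ) ≤ N := by exact_mod_cast hMN
      linarith
    have hN' : ∀ ω, ((N - c ω) / D).toNat ≤ 3 * X := by
      intro ω
      rw [Int.toNat_le]
      have h1 : (N - c ω) / (D : ℤ) ≤ N - c ω := by
        apply Int.ediv_le_self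
        have : (0 : ℤ) ≤ N := Int.natCast_nonneg _
        linarith [(hc1 ω).2]
      have h2 : (N : ℤ) ≤ X := by exact_mod_cast hN
      have h3 : (D : ℤ) ≤ X := by exact_mod_cast (by omega : D ≤ X)
      push_cast
      linarith [(hc1 ω).1]
    have hcP : ∀ j, ((X : ℤ) - ρ j) / D - ((Fin.cons 0 (fun _ => -(X : ℤ) - 1) : Fin (k + 1) → ℤ) j - ρ j) / D ≤ ((3 * X : ℕ) : ℤ) := by
      intro j
      apply ediv_sub_le hD
      refine Fin.cases ?_ (fun j => ?_) j
      · simp only [Fin.cons_zero]; push_cast; linarith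
      · simp only [Fin.cons_succ]
        have : (1 : ℤ) ≤ X := by exact_mod_cast hX1
        push_cast; linarith
    have h1 := hfs (3 * X) (by omega) q _ _ hcP g (fun ω => win_abs (fun n => hB f hf _) _ _) (win_sup _ _ (hN' _))
      (hSm (3 * X) (by omega) _ (hgR _) _ _ (hM' _) (hN' _))
    refine le_trans (le_of_eq ?_) h1
    congr 1
    apply sum_congr rfl; intro y _
    apply prod_congr rfl; intro ω _
    rw [dot_lin]
    have e1 : (D : ℤ) * dot (gf k ω) y + dot (gf k ω) ρ = D * (dot (gf k ω) y + q ω) + c ω := by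
      have := hqc ω
      simp only [he] at this
      rw [this]; ring
    rw [e1, win_res f hD M N (hc1 ω).2]
  refine (sum_le_card_nsmul _ _ _ key).trans (le_of_eq ?_)
  rw [Fintype.card_piFinset, prod_const, card_univ, Fintype.card_fin, Int.card_Ico, nsmul_eq_mul]
  simp only [sub_zero, Int.toNat_natCast]
  push_cast
  rw [mul_pow]
  field_simp

end Pool.Agent.W36.GL
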