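import Pool.Agent.W36.GL.L2
import Pool.Agent.W36.GU.GU13
import Pool.Agent.W36.FD.FD6

/-! The balanced indicator functions of the invariant sets of the maps with a constant `d`: local constancy and dilations. -/

set_option autoImplicit false

namespace Pool.Agent.W36.GL

open Finset Pool.Agent.H320R2.PD Pool.Agent.H499R2.ND Pool.Agent.H499R2.CO Pool.Agent.W41 Pool.Agent.W41.FU Pool.Agent.W36.FD
  Pool.Agent.W36.GU

theorem lcD {d : ℤ} (hd : Odd d) {ε : ℝ} (hε : 0 < ε) (hε1 : ε ≤ 1) :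
    ∃ θ : ℝ, 0 < θ ∧ θ ≤ 1 / 2 ∧ ∃ M0 : ℕ, 1 ≤ M0 ∧ ∀ M : ℕ, M0 ≤ M → ∀ f ∈ SameD d, ∀ c : ℤ, c % 2 = 1 →
      ∀ x0 h : ℤ, |(h : ℝ)| ≤ (M : ℝ) ^ θ →
      ∑ m ∈ Icc 1 M, |f (x0 + c * (m : ℕ) + d * h) - f (x0 + c * (m : ℕ))| ≤ ε * M := by
  classical
  have hdm : d % 2 = 1 := by obtain ⟨t, ht⟩ := hd; omega
  obtain ⟨θ, hθ, k0, hq⟩ := q_quant (show 0 < ε / 16 by positivity) (by linarith)
  obtain ⟨K, y0, hK, hy0, hs⟩ := surv_sum
  have hl1 := Real.log_two_lt_d9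
  have hl2 := Real.log_two_gt_d9
  have hl0 : 0 < Real.log 2 := by linarith
  refine ⟨min (1 / 2) (θ / 4), by positivity, min_le_left _ _, ?_⟩
  set η := min (1 / 2) (θ / 4) with hη
  have hη0 : 0 < η := by positivity
  have hηθ : η ≤ θ / 4 := min_le_right _ _
  refine ⟨⌈Real.exp (2 * ((k0 : ℝ) + 1) + 8)⌉₊ + (y0 ^ K) ^ 2 + 1, by omega, ?_⟩
  intro N hN f hf c hc x0 h hh
  have hN1 : 1 ≤ N := by omega
  have hNR : (1 : ℝ) ≤ N := by exact_mod_cast hN1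
  have hN2 : Real.exp (2 * ((k0 : ℝ) + 1) + 8) ≤ N := by
    have h1 : ⌈Real.exp (2 * ((k0 : ℝ) + 1) + 8)⌉₊ ≤ N := by omega
    exact (Nat.le_ceil _).trans (by exact_mod_cast h1)
  have hN3 : (y0 ^ K) ^ 2 ≤ N := by omega
  set t := Real.log N with ht
  have hexp : Real.exp t = N := Real.exp_log (by linarith)
  have htk : 2 * ((k0 : ℝ) + 1) + 8 ≤ t := by
    rw [← Real.log_exp (2 * ((k0 : ℝ) + 1) + 8)]
    exact Real.log_le_log (Real.exp_pos _) hN2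
  have hk00 : (0 : ℝ) ≤ k0 := Nat.cast_nonneg _
  have htpos : 0 < t := by linarith
  set k := ⌊t / (2 * Real.log 2)⌋₊ with hk
  have hk1 : (k : ℝ) ≤ t / (2 * Real.log 2) := Nat.floor_le (by positivity)
  have hk1' : (k : ℝ) * Real.log 2 ≤ t / 2 := by
    rw [le_div_iff₀ (by positivity)] at hk1; linarith
  have hk2 : t / (2 * Real.log 2) - 1 ≤ k := by linarith [Nat.lt_floor_add_one (t / (2 * Real.log 2))]
  have hk2' : t / 2 - Real.log 2 ≤ k * Real.log 2 := by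
    have e : t / (2 * Real.log 2) * Real.log 2 = t / 2 := by field_simp
    nlinarith
  have hkk0 : k0 ≤ k := by
    have h1 : (k0 : ℝ) ≤ t / (2 * Real.log 2) := by
      rw [le_div_iff₀ (by positivity)]
      nlinarith
    exact Nat.le_floor h1
  have h2k : ((2 : ℝ) ^ k) ^ 2 ≤ N := by
    have h2 : (2 : ℝ) ^ k = Real.exp (k * Real.log 2) := by
      rw [Real.exp_nat_mul, Real.exp_log (by norm_num)]
    rw [h2, ← Real.exp_nat_mul, ← hexp]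
    apply Real.exp_le_exp.2
    push_cast
    linarith
  have hcond : 2 ^ k * y0 ^ K ≤ N := by
    have h1 : (2 ^ k) ^ 2 ≤ N := by exact_mod_cast h2k
    by_contra hcon
    push Not at hcon
    have h3 : N * N < (2 ^ k * y0 ^ K) * (2 ^ k * y0 ^ K) := Nat.mul_lt_mul'' hcon hcon
    have h4 : (2 ^ k * y0 ^ K) * (2 ^ k * y0 ^ K) = (2 ^ k) ^ 2 * (y0 ^ K) ^ 2 := by ring
    rw [h4] at h3
    have h5 := Nat.mul_le_mul h1 hN3
    omega
  have hqq : q step (0, 0) k (0, h) ≤ ε / 16 := by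
    apply hq k hkk0
    refine hh.trans ?_
    have h2 : (2 : ℝ) ^ (θ * k) = Real.exp (θ * (k * Real.log 2)) := by
      rw [Real.rpow_def_of_pos (by norm_num)]
      congr 1; ring
    rw [h2, Real.rpow_def_of_pos (by linarith), ← ht]
    apply Real.exp_le_exp.2
    have h6 : θ * (t / 2 - Real.log 2) ≤ θ * (k * Real.log 2) := mul_le_mul_of_nonneg_left hk2' hθ.le
    have h8 : t * η ≤ t * (θ / 4) := mul_le_mul_of_nonneg_left hηθ htpos.le
    nlinarith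
  have hsurv := hs y0 le_rfl k N hcond ∅ (by simp) 0 1 (by simp) d hdm x0 c hc (0, h)
  have hV : Pool.Agent.W41.V ∅ = 1 := by unfold Pool.Agent.W41.V; simp
  have hb : ∀ n ∈ Icc 1 N, |f (x0 + c * (n : ℕ) + d * h) - f (x0 + c * (n : ℕ))|
      ≤ 2 * (wt ∅ 0 1 (n : ℕ) * (if surv d k (0, h) (x0 + c * (n : ℕ)) then 1 else 0)) := by
    intro n _
    have hw : wt ∅ 0 1 (n : ℕ) = 1 := by unfold wt; simp
    rw [hw, one_mul]
    split_ifs with hsv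
    · have a1 := hf.1 (x0 + c * (n : ℕ) + d * h)
      have a2 := hf.1 (x0 + c * (n : ℕ))
      have a3 := abs_sub (f (x0 + c * (n : ℕ) + d * h)) (f (x0 + c * (n : ℕ)))
      linarith
    · obtain ⟨j, -, hj⟩ := coal hdm k 0 h _ hsv
      have e : (3 : ℤ) ^ 0 * (x0 + c * (n : ℕ)) + d * h = x0 + c * (n : ℕ) + d * h := by ring
      rw [e] at hj
      have hdv : d ∣ (x0 + c * (n : ℕ)) - (x0 + c * (n : ℕ) + d * h) := ⟨-h, by ring⟩
      rw [← hf.2 j _ _ hj hdv, sub_self, abs_zero]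
      norm_num
  refine (sum_le_sum hb).trans ?_
  rw [← mul_sum]
  rw [hV] at hsurv
  have : 8 * (N : ℝ) * 1 * q step (0, 0) k (0, h) ≤ 8 * N * 1 * (ε / 16) :=
    mul_le_mul_of_nonneg_left hqq (by positivity)
  linarith


/-- the balanced indicator functions of the invariant sets of the `3x+d` map on the side `s` -/
def BD (d s : ℤ) : Set (ℤ → ℝ) := {f | ∃ S : Set ℤ, Inv d S ∧ ∃ φ : ℤ → ℝ, IsPhi d s S φ ∧ f = balD s S φ}

theorem BD_same {d : ℤ} (hd : Odd d) {s : ℤ} (hs : s = 1 ∨ s = -1) {f : ℤ → ℝ} (hf : f ∈ BD d s) : f ∈ SameD (s * d) := by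
  obtain ⟨S, hS, φ, hφ, rfl⟩ := hf
  exact balD_same hd hs hS hφ

theorem BD_abs {d s : ℤ} {f : ℤ → ℝ} (hf : f ∈ BD d s) (n : ℤ) : |f n| ≤ 1 := by
  obtain ⟨S, hS, φ, hφ, rfl⟩ := hf
  exact balD_abs hφ n

theorem ind_Tz {d : ℤ} (hd : Odd d) {s : ℤ} (hs : s = 1 ∨ s = -1) {S : Set ℤ} (hS : Inv d S) (x : ℤ) :
    ind s S (Tz (s * d) x) = ind s S x := by
  have e : s * Tz (s * d) x ∈ S ↔ s * x ∈ S := by
    have h1 : Tz (s * d) x = s * Td d (s * x) := Td_side hd hs 1 x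
    rw [h1, s_mul hs]
    exact (hS (s * x)).symm
  unfold ind
  by_cases h1 : s * x ∈ S
  · rw [if_pos h1, if_pos (e.2 h1)]
  · rw [if_neg h1, if_neg (fun h2 => h1 (e.1 h2))]

theorem ind_two {d : ℤ} (hd : Odd d) {s : ℤ} (hs : s = 1 ∨ s = -1) {S : Set ℤ} (hS : Inv d S) (x : ℤ) :
    ind s S (2 * x) = ind s S x := by
  rw [← ind_Tz hd hs hS (2 * x)]
  unfold Tz
  rw [if_pos (by omega)]
  congr 1
  omega

theorem ind_three {d : ℤ} (hd : Odd d) {s : ℤ} (hs : s = 1 ∨ s = -1) {S : Set ℤ} (hS : Inv d S) {x : ℤ} (hx : x % 2 = 1) :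
    ind s S (3 * x + s * d) = ind s S x := by
  have h1 : 3 * x + s * d = 2 * Tz (s * d) x := by
    unfold Tz
    rw [if_neg (by omega)]
    have : (s * d) % 2 = 1 := by
      have h2 : d % 2 = 1 := Int.odd_iff.1 hd
      rcases hs with rfl | rfl <;> omega
    omega
  rw [h1, ind_two hd hs hS, ind_Tz hd hs hS]

theorem phi_two {d s : ℤ} {S : Set ℤ} {φ : ℤ → ℝ} (h : IsPhi d s S φ) (x : ℤ) : φ (s * (2 * x)) = φ (s * x) := by
  apply h.2.1
  refine ⟨1, 0, ?_⟩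
  have : s * (2 * x) = 2 ^ 1 * 3 ^ 0 * (s * x) := by ring
  rw [this]

theorem phi_three {d s : ℤ} {S : Set ℤ} {φ : ℤ → ℝ} (h : IsPhi d s S φ) (x t : ℤ) : φ (s * (3 * x + d * t)) = φ (s * x) := by
  apply h.2.1
  refine ⟨0, 1, ?_⟩
  have : s * (3 * x + d * t) = 2 ^ 0 * 3 ^ 1 * (s * x) + d * (s * t) := by ring
  rw [this]
  exact (Int.modEq_iff_dvd.2 ⟨-(s * t), by ring⟩)

theorem BD_two {d : ℤ} (hd : Odd d) {s : ℤ} (hs : s = 1 ∨ s = -1) {f : ℤ → ℝ} (hf : f ∈ BD d s) (x : ℤ) : f (2 * x) = f x := by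
  obtain ⟨S, hS, φ, hφ, rfl⟩ := hf
  unfold balD
  rw [ind_two hd hs hS, phi_two hφ]

theorem BD_three {d : ℤ} (hd : Odd d) {s : ℤ} (hs : s = 1 ∨ s = -1) {f : ℤ → ℝ} (hf : f ∈ BD d s) {x : ℤ} (hx : x % 2 = 1) :
    f (3 * x + s * d) = f x := by
  obtain ⟨S, hS, φ, hφ, rfl⟩ := hf
  unfold balD
  rw [ind_three hd hs hS hx]
  congr 1
  have := phi_three hφ x s
  rwa [mul_comm d s] at this

theorem BD_loc {d : ℤ} (hd : Odd d) {s : ℤ} (hs : s = 1 ∨ s = -1) {κ : ℝ} (hκ : 0 < κ) (J : ℕ) :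
    ∃ X0 : ℕ, 1 ≤ X0 ∧ ∀ X : ℕ, X0 ≤ X → ∀ f ∈ BD d s, ∀ c : ℤ, c % 2 = 1 → ∀ x0 r : ℤ, |r| ≤ J →
      ∑ n ∈ Icc (1 : ℤ) X, |f (x0 + c * n + (s * d) * r) - f (x0 + c * n)| ≤ κ * X := by
  obtain ⟨θ, hθ, -, M0, hM0, H⟩ := lcD (side_odd hd hs) (show 0 < min κ 1 from lt_min hκ one_pos) (min_le_right _ _)
  obtain ⟨M1, hM1⟩ := exists_nat_ge ((J : ℝ) ^ (1 / θ))
  refine ⟨M0 + M1, by omega, fun X hX f hf c hc x0 r hr => ?_⟩
  have h1 : |(r : ℝ)| ≤ (X : ℝ) ^ θ := by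
    have h2 : (J : ℝ) ^ (1 / θ) ≤ X := hM1.trans (by exact_mod_cast (by omega : M1 ≤ X))
    have h3 : ((J : ℝ) ^ (1 / θ)) ^ θ ≤ (X : ℝ) ^ θ := Real.rpow_le_rpow (by positivity) h2 hθ.le
    rw [← Real.rpow_mul (Nat.cast_nonneg _), one_div, inv_mul_cancel₀ hθ.ne', Real.rpow_one] at h3
    have h4 : |(r : ℝ)| ≤ J := by exact_mod_cast hr
    linarith
  have h2 := H X (by omega) f (BD_same hd hs hf) c hc x0 r h1
  rw [sum_cast]
  exact h2.trans (mul_le_mul_of_nonneg_right (min_le_left _ _) (Nat.cast_nonneg _))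

/-- shifts by multiples of `|d|` -/
theorem BD_loc' {d : ℤ} (hd : Odd d) {s : ℤ} (hs : s = 1 ∨ s = -1) {κ : ℝ} (hκ : 0 < κ) (J : ℕ) :
    ∃ X0 : ℕ, 1 ≤ X0 ∧ ∀ X : ℕ, X0 ≤ X → ∀ f ∈ BD d s, ∀ c : ℤ, c % 2 = 1 → ∀ x0 r : ℤ, |r| ≤ J →
      ∑ n ∈ Icc (1 : ℤ) X, |f (x0 + c * n + (d.natAbs : ℤ) * r) - f (x0 + c * n)| ≤ κ * X := by
  obtain ⟨X0, h0, H⟩ := BD_loc hd hs hκ J
  refine ⟨X0, h0, fun X hX f hf c hc x0 r hr => ?_⟩
  rcases Int.natAbs_eq d with h | h <;> rcases hs with rfl | rfl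
  · have := H X hX f hf c hc x0 r hr
    rwa [one_mul, h] at this
  · have := H X hX f hf c hc x0 (-r) (by rwa [abs_neg])
    have e : (-1 * d) * (-r) = (d.natAbs : ℤ) * r := by
      have : d = d.natAbs := h
      linear_combination r * this
    rwa [e] at this
  · have := H X hX f hf c hc x0 (-r) (by rwa [abs_neg])
    have e : (1 * d) * (-r) = (d.natAbs : ℤ) * r := by
      have : d = -d.natAbs := h
      linear_combination (-r) * this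
    rwa [e] at this
  · have := H X hX f hf c hc x0 r hr
    have e : (-1 * d) * r = (d.natAbs : ℤ) * r := by
      have : d = -d.natAbs := h
      linear_combination (-r) * this
    rwa [e] at this

end Pool.Agent.W36.GL
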