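import Pool.Agent.W36.GL.L3
import Pool.Agent.W36.FD.FD7

/-! The restrictions of the balanced functions to the residue classes modulo `|d|` satisfy the hypotheses. -/

set_option autoImplicit false

namespace Pool.Agent.W36.GL

open Finset Pool.Agent.H320R2.PD Pool.Agent.H499R2.ND Pool.Agent.H499R2.CO Pool.Agent.W41 Pool.Agent.W41.FU Pool.Agent.W36.FD
  Pool.Agent.W36.GU

theorem BD_dil2 {d : ℤ} (hd : Odd d) {s : ℤ} (hs : s = 1 ∨ s = -1) : Dil (BD d s) 2 := by
  intro κ hκ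
  refine ⟨0, fun X _ f hf => ?_⟩
  have : ∑ n ∈ Icc (1 : ℤ) X, |f ((2 : ℕ) * n) - f n| = 0 := by
    apply sum_eq_zero
    intro n _
    have e : ((2 : ℕ) : ℤ) * n = 2 * n := by push_cast; rfl
    rw [e, BD_two hd hs hf]; simp
  rw [this]; positivity

theorem BD_dil3 {d : ℤ} (hd : Odd d) {s : ℤ} (hs : s = 1 ∨ s = -1) : Dil (BD d s) 3 := by
  intro κ hκ
  obtain ⟨X0, hX0, h0⟩ := BD_loc hd hs (show 0 < κ / 4 by positivity) 1
  have h1 : ∀ X : ℕ, X0 ≤ X → ∀ f ∈ BD d s, ∑ n ∈ Icc (1 : ℤ) X, |f (3 * n + s * d) - f (3 * n)| ≤ κ / 4 * X := by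
    intro X hX f hf
    have := h0 X hX f hf 3 (by norm_num) 0 1 (by simp)
    simpa only [zero_add, mul_one] using this
  obtain ⟨X1, hX1⟩ := exists_nat_ge (4 * X0 / κ)
  have key : ∀ X : ℕ, ∀ f ∈ BD d s, ∑ n ∈ Icc (1 : ℤ) X, |f ((3 : ℕ) * n) - f n| ≤ κ / 2 * X + 2 * X0 := by
    intro X
    induction X using Nat.strong_induction_on with
    | _ X ih =>
      intro f hf
      have hb : ∀ n : ℤ, |f ((3 : ℕ) * n) - f n| ≤ 2 := by
        intro n
        have a1 := abs_le.1 (BD_abs hf ((3 : ℕ) * n))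
        have a2 := abs_le.1 (BD_abs hf n)
        rw [abs_le]; constructor <;> linarith [a1.1, a1.2, a2.1, a2.2]
      rcases Nat.lt_or_ge X X0 with hX | hX
      · have h2 : ∑ n ∈ Icc (1 : ℤ) X, |f ((3 : ℕ) * n) - f n| ≤ 2 * X := by
          refine (sum_le_card_nsmul _ _ _ (fun n _ => hb n)).trans ?_
          rw [Int.card_Icc, nsmul_eq_mul, add_sub_cancel_right, Int.toNat_natCast]
          linarith
        have h3 : (X : ℝ) ≤ X0 := by exact_mod_cast hX.le
        have h4 : 0 ≤ κ / 2 * X := by positivity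
        exact h2.trans (by linarith)
      · have h2 := h1 X hX f hf
        have h3 := ih (X / 2) (by omega) f hf
        have h4 : ∑ n ∈ Icc (1 : ℤ) X, |f ((3 : ℕ) * n) - f n|
            ≤ ∑ n ∈ Icc (1 : ℤ) X, |f (3 * n + s * d) - f (3 * n)| + ∑ m ∈ Icc (1 : ℤ) ((X / 2 : ℕ) : ℤ), |f ((3 : ℕ) * m) - f m| := by
          have h5 : ∑ m ∈ Icc (1 : ℤ) ((X / 2 : ℕ) : ℤ), |f ((3 : ℕ) * m) - f m|
              = ∑ n ∈ (Icc (1 : ℤ) X).filter (fun n => n % 2 = 0), |f ((3 : ℕ) * n) - f n| := by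
            have e1 : (Icc (1 : ℤ) X).filter (fun n => n % 2 = 0) = (Icc (1 : ℤ) ((X / 2 : ℕ) : ℤ)).image (fun m => 2 * m) := by
              ext n
              rw [mem_filter, mem_Icc, mem_image]
              constructor
              · rintro ⟨⟨a1, a2⟩, a3⟩
                exact ⟨n / 2, by rw [mem_Icc]; omega, by omega⟩
              · rintro ⟨m, hm, rfl⟩
                rw [mem_Icc] at hm
                omega
            rw [e1, sum_image (by intro a _ b _ hab; simpa using hab)]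
            apply sum_congr rfl
            intro m _
            have e2 : ((3 : ℕ) : ℤ) * (2 * m) = 2 * ((3 : ℕ) * m) := by ring
            rw [e2, BD_two hd hs hf, BD_two hd hs hf]
          rw [h5, ← sum_filter_add_sum_filter_not (Icc (1 : ℤ) X) (fun n : ℤ => n % 2 = 0) (fun n => |f ((3 : ℕ) * n) - f n|)]
          have h6 : ∑ n ∈ (Icc (1 : ℤ) X).filter (fun n => ¬ n % 2 = 0), |f ((3 : ℕ) * n) - f n|
              ≤ ∑ n ∈ Icc (1 : ℤ) X, |f (3 * n + s * d) - f (3 * n)| := by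
            have e3 : ∑ n ∈ (Icc (1 : ℤ) X).filter (fun n => ¬ n % 2 = 0), |f ((3 : ℕ) * n) - f n|
                = ∑ n ∈ (Icc (1 : ℤ) X).filter (fun n => ¬ n % 2 = 0), |f (3 * n + s * d) - f (3 * n)| := by
              apply sum_congr rfl
              intro n hn
              rw [mem_filter] at hn
              rw [BD_three hd hs hf (by omega), abs_sub_comm]
              push_cast
              rfl
            rw [e3]
            exact sum_le_sum_of_subset_of_nonneg (filter_subset _ _) fun _ _ _ => abs_nonneg _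
          linarith
        have h5 : ((X / 2 : ℕ) : ℝ) ≤ X / 2 := by
          have := @Nat.cast_div_le ℝ _ _ _ X 2
          exact_mod_cast this
        have h6 : κ / 2 * ((X / 2 : ℕ) : ℝ) ≤ κ / 2 * (X / 2) := mul_le_mul_of_nonneg_left h5 (by positivity)
        linarith
  refine ⟨X1, fun X hX f hf => (key X f hf).trans ?_⟩
  have h2 : 4 * (X0 : ℝ) / κ ≤ X := hX1.trans (by exact_mod_cast hX)
  rw [div_le_iff₀ hκ] at h2
  linarith

/-- the dilations of the restrictions -/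
theorem Rs_dil {d : ℤ} (hd : Odd d) {s : ℤ} (hs : s = 1 ∨ s = -1) {a : ℕ} (ha1 : 1 ≤ a) (ha : Dil (BD d s) a)
    (hda : (d.natAbs : ℤ) ∣ (a : ℤ) - 1) : Dil (Rs (BD d s) d.natAbs) a := by
  intro κ hκ
  have hd0 : d.natAbs % 2 = 1 := by have h2 : d % 2 = 1 := Int.odd_iff.1 hd; omega
  obtain ⟨D, hD⟩ : ∃ D : ℕ, D = d.natAbs := ⟨_, rfl⟩
  have hD1 : 1 ≤ D := by omega
  rw [← hD] at hda hd0 ⊢
  have hDR : (0 : ℝ) < D := by exact_mod_cast hD1
  have haR : (0 : ℝ) < a := by exact_mod_cast ha1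
  obtain ⟨q, hq⟩ := hda
  have hq0 : 0 ≤ q := by
    by_contra hcon
    push Not at hcon
    have h1 : (D : ℤ) * q ≤ D * (-1) := mul_le_mul_of_nonneg_left (by omega) (by omega)
    have h2 : (1 : ℤ) ≤ a := by exact_mod_cast ha1
    have h3 : (1 : ℤ) ≤ D := by exact_mod_cast hD1
    linarith
  obtain ⟨X1, -, h1⟩ := BD_loc' hd hs (show 0 < κ / (2 * a) by positivity) (q.toNat * D)
  obtain ⟨X2, h2⟩ := ha (κ / (2 * D)) (by positivity)
  rw [← hD] at h1
  refine ⟨X1 + X2, fun X hX g hg => ?_⟩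
  obtain ⟨f, hf, c, hc1, hc2, rfl⟩ := hg
  have haX : X ≤ a * X := Nat.le_mul_of_pos_left _ (by omega)
  have hDX : X ≤ D * X := Nat.le_mul_of_pos_left _ (by omega)
  have hr : |q * c| ≤ ((q.toNat * D : ℕ) : ℤ) := by
    rw [abs_mul, abs_of_nonneg hq0]
    push_cast
    rw [Int.toNat_of_nonneg hq0]
    apply mul_le_mul_of_nonneg_left _ hq0
    rw [abs_le]
    constructor <;> omega
  have h3 := h1 (a * X) (by omega) f hf D (by omega) c (q * c) hr
  have h4 := h2 (D * X) (by omega) f hf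
  have e5 : ∑ n ∈ Icc (1 : ℤ) X, |f (c + D * (a * n) + D * (q * c)) - f (c + D * (a * n))| ≤
      ∑ y ∈ Icc (1 : ℤ) (a * X : ℕ), |f (c + D * y + D * (q * c)) - f (c + D * y)| := by
    rw [← sum_image (s := Icc (1 : ℤ) X) (g := fun n => (a : ℤ) * n) (f := fun y => |f (c + D * y + D * (q * c)) - f (c + D * y)|)]
    · apply sum_le_sum_of_subset_of_nonneg
      · intro y hy
        rw [mem_image] at hy
        obtain ⟨x, hx, rfl⟩ := hy
        rw [mem_Icc] at hx ⊢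
        have hb2 : (1 : ℤ) ≤ a := by exact_mod_cast ha1
        constructor
        · nlinarith
        · push_cast
          nlinarith
      · intro _ _ _; exact abs_nonneg _
    · intro x _ y _ hxy
      exact mul_left_cancel₀ (by exact_mod_cast (by omega : a ≠ 0)) hxy
  have e6 : ∑ n ∈ Icc (1 : ℤ) X, |f (a * (D * n + c)) - f (D * n + c)| ≤
      ∑ y ∈ Icc (1 : ℤ) (D * X : ℕ), |f (a * y) - f y| := by
    rw [← sum_image (s := Icc (1 : ℤ) X) (g := fun n => (D : ℤ) * n + c) (f := fun y => |f (a * y) - f y|)]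
    · apply sum_le_sum_of_subset_of_nonneg
      · intro y hy
        rw [mem_image] at hy
        obtain ⟨x, hx, rfl⟩ := hy
        rw [mem_Icc] at hx ⊢
        have hb2 : (1 : ℤ) ≤ D := by exact_mod_cast hD1
        constructor
        · nlinarith
        · push_cast
          nlinarith
      · intro _ _ _; exact abs_nonneg _
    · intro x _ y _ hxy
      have hxy' : (D : ℤ) * x + c = D * y + c := hxy
      exact mul_left_cancel₀ (by exact_mod_cast (by omega : D ≠ 0)) (by linarith : (D : ℤ) * x = D * y)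
  have e7 : ∑ n ∈ Icc (1 : ℤ) X, |f (D * ((a : ℕ) * n) + c) - f (D * n + c)| ≤
      ∑ n ∈ Icc (1 : ℤ) X, |f (c + D * (a * n) + D * (q * c)) - f (c + D * (a * n))|
        + ∑ n ∈ Icc (1 : ℤ) X, |f (a * (D * n + c)) - f (D * n + c)| := by
    rw [← sum_add_distrib]
    apply sum_le_sum
    intro n _
    have e1 : c + D * ((a : ℤ) * n) + D * (q * c) = a * (D * n + c) := by
      linear_combination (-c) * hq
    have e2 : c + D * ((a : ℤ) * n) = D * (a * n) + c := by ring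
    rw [e1, e2, abs_sub_comm (f (a * (D * n + c))) (f (D * (a * n) + c))]
    exact abs_sub_le _ _ _
  have e8 : κ / (2 * a) * ((a * X : ℕ) : ℝ) = κ / 2 * X := by push_cast; field_simp
  have e9 : κ / (2 * D) * ((D * X : ℕ) : ℝ) = κ / 2 * X := by push_cast; field_simp
  rw [e8] at h3
  rw [e9] at h4
  calc _ ≤ _ := e7
    _ ≤ κ / 2 * X + κ / 2 * X := add_le_add (e5.trans h3) (e6.trans h4)
    _ = κ * X := by ring

/-- sums over a residue class -/
theorem sum_class {D : ℕ} (hD : 1 ≤ D) (G : ℤ → ℂ) {c : ℤ} (hc1 : -(D : ℤ) < c) (hc2 : c ≤ 0) (X : ℕ) :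
    ∑ n ∈ Icc (1 : ℤ) X, G (D * n + c) = ∑ y ∈ Icc (1 : ℤ) (D * X : ℕ), if (D : ℤ) ∣ y - c then G y else 0 := by
  have hD0 : (0 : ℤ) < D := by exact_mod_cast hD
  rw [← sum_filter]
  apply sum_nbij (fun n => (D : ℤ) * n + c)
  · intro n hn
    rw [mem_Icc] at hn
    rw [mem_filter, mem_Icc]
    refine ⟨⟨by nlinarith, by push_cast; nlinarith⟩, ⟨n, by ring⟩⟩
  · intro x _ y _ hxy
    have hxy' : (D : ℤ) * x + c = D * y + c := hxy
    exact mul_left_cancel₀ hD0.ne' (by linarith : (D : ℤ) * x = D * y)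
  · intro y hy
    rw [coe_filter] at hy
    obtain ⟨hy1, ⟨n, hn⟩⟩ := hy
    rw [mem_Icc] at hy1
    refine ⟨n, ?_, by simp only; linarith⟩
    rw [mem_coe, mem_Icc]
    push_cast at hy1
    constructor
    · by_contra hcon
      push Not at hcon
      have : (D : ℤ) * n ≤ D * 0 := mul_le_mul_of_nonneg_left (by omega) hD0.le
      linarith [hy1.1]
    · by_contra hcon
      push Not at hcon
      have : (D : ℤ) * (X + 1) ≤ D * n := mul_le_mul_of_nonneg_left (by omega) hD0.le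
      linarith [hy1.2]
  · intro n _; rfl

theorem psi_ee {p : ℕ} [NeZero p] (ζ : ZMod p) (x : ℤ) : psi p (ζ * x) = ee ((ζ.val : ℝ) / p) x := by
  have e3 : ζ * (x : ZMod p) = (((ζ.val : ℤ) * x : ℤ) : ZMod p) := by
    push_cast
    rw [ZMod.natCast_zmod_val]
  rw [e3, psi_int]
  unfold ee
  congr 1
  push_cast
  ring

theorem ee_addα (α β : ℝ) (x : ℤ) : ee (α + β) x = ee α x * ee β x := by
  unfold ee
  rw [← Complex.exp_add]
  congr 1
  push_cast
  ring

theorem Rs_fou {d : ℤ} (hd : d % 6 = 1 ∨ d % 6 = 5) {s : ℤ} (hs : s = 1 ∨ s = -1) {κ : ℝ} (hκ : 0 < κ) :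
    ∃ X0 : ℕ, ∀ X : ℕ, X0 ≤ X → ∀ f ∈ Rs (BD d s) d.natAbs, ∀ M N : ℕ, M ≤ N → N ≤ X →
    ∀ (p : ℕ) [NeZero p] (ζ : ZMod p), ‖∑ n ∈ Icc (1 : ℤ) X, (win M N f n : ℂ) * psi p (ζ * n)‖ ≤ κ * X := by
  obtain ⟨D, hD⟩ : ∃ D : ℕ, D = d.natAbs := ⟨_, rfl⟩
  have hD1 : 1 ≤ D := by omega
  have hD0 : (0 : ℤ) < D := by exact_mod_cast hD1
  have hDR : (0 : ℝ) < D := by exact_mod_cast hD1
  have : NeZero D := ⟨by omega⟩
  rw [← hD]
  obtain ⟨N0, -, H⟩ := fourier_int hd hs (show 0 < min (κ / D) 1 from lt_min (by positivity) one_pos) (min_le_right _ _)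
  refine ⟨N0, fun X hX g hg M N hMN hN p hp ζ => ?_⟩
  obtain ⟨f, hf, c, hc1, hc2, rfl⟩ := hg
  obtain ⟨S, hS, φ, hφ, rfl⟩ := hf
  obtain ⟨F, hF⟩ : ∃ F : ℤ → ℝ, F = res (D * M) (D * N) (balD s S φ) := ⟨_, rfl⟩
  obtain ⟨α, hα⟩ : ∃ α : ℝ, α = (ζ.val : ℝ) / p / D := ⟨_, rfl⟩
  have hDX : X ≤ D * X := Nat.le_mul_of_pos_left _ (by omega)
  have hDMN : D * M ≤ D * N := Nat.mul_le_mul_left _ hMN
  have hDNX : D * N ≤ D * X := Nat.mul_le_mul_left _ hN
  have h1 : ∀ β : ℝ, ‖EE F (D * X) β‖ ≤ κ * X := by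
    intro β
    rw [hF]
    refine (H S hS φ hφ (D * X) (by omega) (D * N) hDNX (D * M) hDMN β).trans ?_
    calc min (κ / D) 1 * ((D * X : ℕ) : ℝ) ≤ (κ / D) * ((D * X : ℕ) : ℝ) :=
          mul_le_mul_of_nonneg_right (min_le_left _ _) (Nat.cast_nonneg _)
      _ = κ * X := by push_cast; field_simp
  have e1 : ∑ n ∈ Icc (1 : ℤ) X, (win M N (fun n => balD s S φ (D * n + c)) n : ℂ) * psi p (ζ * n)
      = ∑ n ∈ Icc (1 : ℤ) X, (fun y : ℤ => (F y : ℂ) * ee α (y - c)) (D * n + c) := by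
    apply sum_congr rfl
    intro n _
    rw [psi_ee]
    simp only
    have e2 : ee α (D * n + c - c) = ee ((ζ.val : ℝ) / p) n := by
      have h2 : (D : ℤ) * n + c - c = D * n := by ring
      rw [h2, hα, ← ee_mul]
      congr 1
      push_cast
      field_simp
    rw [e2]
    congr 2
    rw [hF]
    unfold win res
    have e3 : ((M : ℤ) < n ∧ n ≤ N) ↔ (((D * M : ℕ) : ℤ) < D * n + c ∧ D * n + c ≤ ((D * N : ℕ) : ℤ)) := by
      push_cast
      constructor
      · rintro ⟨a1, a2⟩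
        have b1 : (D : ℤ) * (M + 1) ≤ D * n := mul_le_mul_of_nonneg_left (by omega) hD0.le
        have b2 : (D : ℤ) * n ≤ D * N := mul_le_mul_of_nonneg_left (by omega) hD0.le
        constructor <;> linarith
      · rintro ⟨a1, a2⟩
        constructor
        · by_contra hcon
          push Not at hcon
          have : (D : ℤ) * n ≤ D * M := mul_le_mul_of_nonneg_left hcon hD0.le
          linarith
        · by_contra hcon
          push Not at hcon
          have : (D : ℤ) * (N + 1) ≤ D * n := mul_le_mul_of_nonneg_left (by omega) hD0.le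
          linarith
    by_cases h : (M : ℤ) < n ∧ n ≤ N
    · rw [if_pos h, if_pos (e3.1 h)]
    · rw [if_neg h, if_neg (fun h2 => h (e3.2 h2))]
  rw [e1, sum_class hD1 (fun y : ℤ => (F y : ℂ) * ee α (y - c)) hc1 hc2]
  have e4 : ∀ y : ℤ, (if (D : ℤ) ∣ y - c then (F y : ℂ) * ee α (y - c) else 0)
      = (1 / D : ℂ) * ∑ b : ZMod D, ee (α + (b.val : ℝ) / D) (-c) * ((F y : ℂ) * ee (α + (b.val : ℝ) / D) y) := by
    intro y
    have e5 : ∀ b : ZMod D, ee (α + (b.val : ℝ) / D) (-c) * ((F y : ℂ) * ee (α + (b.val : ℝ) / D) y)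
        = (F y : ℂ) * ee α (y - c) * psi D (b * ((y - c : ℤ) : ZMod D)) := by
      intro b
      rw [psi_ee]
      have e6 : ee (α + (b.val : ℝ) / D) (-c) * ((F y : ℂ) * ee (α + (b.val : ℝ) / D) y)
          = (F y : ℂ) * ee (α + (b.val : ℝ) / D) (y - c) := by
        rw [sub_eq_add_neg, ee_add]; ring
      rw [e6, ee_addα]
      ring
    rw [sum_congr rfl (fun b _ => e5 b), ← mul_sum, psi_orth]
    have hDC : (D : ℂ) ≠ 0 := by exact_mod_cast hDR.ne'
    by_cases h : (D : ℤ) ∣ y - c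
    · rw [if_pos h, if_pos ((ZMod.intCast_zmod_eq_zero_iff_dvd _ _).2 h)]
      field_simp
    · rw [if_neg h, if_neg (fun h2 => h ((ZMod.intCast_zmod_eq_zero_iff_dvd _ _).1 h2))]
      ring
  rw [sum_congr rfl (fun y _ => e4 y), ← mul_sum, sum_comm]
  have e7 : ∀ b : ZMod D, ∑ y ∈ Icc (1 : ℤ) (D * X : ℕ), ee (α + (b.val : ℝ) / D) (-c) * ((F y : ℂ) * ee (α + (b.val : ℝ) / D) y)
      = ee (α + (b.val : ℝ) / D) (-c) * EE F (D * X) (α + (b.val : ℝ) / D) := by
    intro b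
    rw [← mul_sum, sum_cast]
    rfl
  rw [sum_congr rfl (fun b _ => e7 b), norm_mul]
  have e8 : ‖∑ b : ZMod D, ee (α + (b.val : ℝ) / D) (-c) * EE F (D * X) (α + (b.val : ℝ) / D)‖ ≤ D * (κ * X) := by
    refine (norm_sum_le _ _).trans ?_
    refine (sum_le_card_nsmul _ _ (κ * X) ?_).trans (le_of_eq ?_)
    · intro b _
      rw [norm_mul, ee_norm, one_mul]
      exact h1 _
    · rw [card_univ, ZMod.card, nsmul_eq_mul]
  have e9 : ‖(1 / D : ℂ)‖ = 1 / D := by
    rw [norm_div, norm_one, Complex.norm_natCast]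
  rw [e9]
  calc 1 / (D : ℝ) * ‖∑ b : ZMod D, ee (α + (b.val : ℝ) / D) (-c) * EE F (D * X) (α + (b.val : ℝ) / D)‖
      ≤ 1 / D * (D * (κ * X)) := mul_le_mul_of_nonneg_left e8 (by positivity)
    _ = κ * X := by field_simp

/-- exponents with `2 ^ m ≡ 3 ^ m ≡ 1` -/
theorem exists_exp {d : ℤ} (hd : d % 6 = 1 ∨ d % 6 = 5) : ∃ m : ℕ, 1 ≤ m ∧ (d.natAbs : ℤ) ∣ ((2 ^ m : ℕ) : ℤ) - 1 ∧
    (d.natAbs : ℤ) ∣ ((3 ^ m : ℕ) : ℤ) - 1 := by
  have h2 : Nat.Coprime 2 d.natAbs := (Nat.Prime.coprime_iff_not_dvd Nat.prime_two).2 (by omega)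
  have h3 : Nat.Coprime 3 d.natAbs := (Nat.Prime.coprime_iff_not_dvd Nat.prime_three).2 (by omega)
  have hd1 : 1 ≤ d.natAbs := by omega
  refine ⟨Nat.totient d.natAbs, Nat.totient_pos.2 (by omega), ?_, ?_⟩
  · have h := (Nat.ModEq.pow_totient h2).symm
    have := (Nat.modEq_iff_dvd.1 h)
    exact_mod_cast this
  · have h := (Nat.ModEq.pow_totient h3).symm
    have := (Nat.modEq_iff_dvd.1 h)
    exact_mod_cast this

theorem Rs_hyp {d : ℤ} (hd : d % 6 = 1 ∨ d % 6 = 5) {s : ℤ} (hs : s = 1 ∨ s = -1) {m : ℕ} (hm : 1 ≤ m)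
    (h2 : (d.natAbs : ℤ) ∣ ((2 ^ m : ℕ) : ℤ) - 1) (h3 : (d.natAbs : ℤ) ∣ ((3 ^ m : ℕ) : ℤ) - 1) :
    Hyp (Rs (BD d s) d.natAbs) (2 ^ m) (3 ^ m) where
  abs := by
    rintro g ⟨f, hf, c, -, -, rfl⟩ n
    exact BD_abs hf _
  loc := by
    intro κ hκ j
    have hodd : Odd d := by rw [Int.odd_iff]; omega
    obtain ⟨X0, -, h⟩ := BD_loc' hodd hs hκ j
    refine ⟨X0, fun X hX g hg => ?_⟩
    obtain ⟨f, hf, c, -, -, rfl⟩ := hg
    have := h X hX f hf d.natAbs (by omega) c j (by simp)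
    refine le_trans (le_of_eq ?_) this
    apply sum_congr rfl
    intro n _
    simp only
    have e1 : (d.natAbs : ℤ) * (n + j) + c = c + d.natAbs * n + d.natAbs * j := by ring
    have e2 : (d.natAbs : ℤ) * n + c = c + d.natAbs * n := by ring
    rw [e1, e2]
  dilA := Rs_dil (by rw [Int.odd_iff]; omega) hs (Nat.one_le_pow _ _ (by norm_num))
    (Dil.pow (by norm_num) (BD_dil2 (by rw [Int.odd_iff]; omega) hs) m) h2
  dilB := Rs_dil (by rw [Int.odd_iff]; omega) hs (Nat.one_le_pow _ _ (by norm_num))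
    (Dil.pow (by norm_num) (BD_dil3 (by rw [Int.odd_iff]; omega) hs) m) h3
  two_leA := by
    calc 2 = 2 ^ 1 := rfl
      _ ≤ 2 ^ m := Nat.pow_le_pow_right (by norm_num) hm
  two_leB := by
    calc 2 ≤ 3 ^ 1 := by norm_num
      _ ≤ 3 ^ m := Nat.pow_le_pow_right (by norm_num) hm
  ind := by
    intro k j hk hj
    rw [← pow_mul, ← pow_mul]
    exact pow_ne _ _ (Nat.mul_pos hm hk) (Nat.mul_pos hm hj)
  fou := fun _ hκ => Rs_fou hd hs hκ

/-- ALL GOWERS NORMS of the balanced functions of the invariant sets of the `3x+d` map are small, uniformly. -/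
theorem BD_sm {d : ℤ} (hd : d % 6 = 1 ∨ d % 6 = 5) {s : ℤ} (hs : s = 1 ∨ s = -1) (k : ℕ) :
    Pool.Agent.W36.GK.Sm k (BD d s) := by
  obtain ⟨m, hm, h2, h3⟩ := exists_exp hd
  exact prog_small (fun f hf => BD_abs hf) (D := d.natAbs) (by omega)
    (fun j => Pool.Agent.W36.GK.GN_all (Rs_hyp hd hs hm h2 h3) j) k

end Pool.Agent.W36.GL
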