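import Pool.Agent.W36.GL.L4
import Pool.Agent.W36.GK.K20
import Pool.Agent.W36.GV.GV5

/-! The number of points of a box at which given affine linear forms have values in given invariant sets of the maps
with a constant `d`. -/

set_option autoImplicit false

namespace Pool.Agent.W36.GL

open Finset Pool.Agent.H499R2.ND Pool.Agent.H499R2.CO Pool.Agent.W41 Pool.Agent.W41.FU Pool.Agent.W36.FD
  Pool.Agent.W36.GU Pool.Agent.W36.GV Pool.Agent.W36.GK Polynomial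

/-- orthogonality to polynomial phases -/
theorem poly_orthD {F : Set (ℤ → ℝ)} (hF : ∀ f ∈ F, B1 f) {k : ℕ} (H : Sm (k + 1) F) {ε : ℝ} (hε : 0 < ε) :
    ∃ X0 : ℕ, ∀ X : ℕ, X0 ≤ X → ∀ f ∈ F, ∀ M N : ℕ, M ≤ N → N ≤ X → ∀ P : ℝ[X], P.natDegree ≤ k →
      ‖∑ n ∈ Ioc M N, (f (n : ℕ) : ℂ) * ex (P.eval (n : ℝ))‖ ≤ ε * X := by
  obtain ⟨δ, hδ, h⟩ := phases k ε hε
  obtain ⟨X0, h0⟩ := H δ hδ
  refine ⟨X0 + 1, fun X hX f hf M N hMN hN P hP => ?_⟩
  have h1 := h X (by omega) (win M N f) (win_abs (hF f hf) _ _) (win_sup _ _ hN)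
    (h0 X (by omega) f hf M N hMN hN) _ (ph_poly k P hP)
  have e : ∑ n ∈ Icc (1 : ℤ) X, (win M N f n : ℂ) * ex (P.eval (n : ℝ)) = ∑ n ∈ Ioc M N, (f (n : ℕ) : ℂ) * ex (P.eval (n : ℝ)) := by
    rw [sum_cast]
    symm
    have e1 : ∀ n ∈ Ioc M N, (f (n : ℕ) : ℂ) * ex (P.eval (n : ℝ)) = (win M N f (n : ℕ) : ℂ) * ex (P.eval (((n : ℕ) : ℤ) : ℝ)) := by
      intro n hn
      rw [mem_Ioc] at hn
      unfold win
      rw [if_pos (by omega)]
      push_cast
      rfl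
    rw [sum_congr rfl e1]
    apply sum_subset
    · intro n hn
      rw [mem_Ioc] at hn
      rw [mem_Icc]
      omega
    · intro n _ hn
      rw [mem_Ioc] at hn
      unfold win
      rw [if_neg (by omega)]
      simp
  rw [e] at h1
  exact h1

/-- the sum of the products of the local densities over the points of a box -/
noncomputable def Wn {D r : ℕ} (Λ : Fin r → Fin D → ℤ) (c s : Fin r → ℤ) (M N : Fin r → ℕ) (P P' : Fin D → ℤ) (φ : Fin r → ℤ → ℝ) : ℝ :=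
  ∑ x ∈ box P P', ∏ i, win (M i) (N i) (sph (s i) (φ i)) (dot (fun j => s i * Λ i j) x + s i * c i)

theorem countD {d : ℤ} {D r : ℕ} (hsm : ∀ s : ℤ, (s = 1 ∨ s = -1) → Sm (r + 1) (BD d s)) (Λ : Fin r → Fin D → ℤ) (h0 : ∀ i, Λ i ≠ 0)
    (hΛ : ∀ i j, i ≠ j → Indep (Λ i) (Λ j)) {s : Fin r → ℤ} (hs : ∀ i, s i = 1 ∨ s i = -1) {ε : ℝ} (hε : 0 < ε) :
    ∃ X0 : ℕ, ∀ S : Fin r → Set ℤ, (∀ i, Inv d (S i)) → ∀ φ : Fin r → ℤ → ℝ, (∀ i, IsPhi d (s i) (S i) (φ i)) → ∀ X : ℕ, X0 ≤ X →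
      ∀ c : Fin r → ℤ, ∀ M N : Fin r → ℕ, (∀ i, M i ≤ N i) → (∀ i, N i ≤ X) → ∀ P P' : Fin D → ℤ, (∀ j, P' j - P j ≤ X) →
      |(Cn Λ c s M N P P' S : ℝ) - Wn Λ c s M N P P' φ| ≤ ε * (X : ℝ) ^ D := by
  classical
  set Λ' : Fin r → Fin D → ℤ := fun i j => s i * Λ i j with hΛ'
  have hs0 : ∀ i, s i ≠ 0 := fun i => by rcases hs i with h | h <;> rw [h] <;> norm_num
  obtain ⟨η, hη, X1, h⟩ := forms_count Λ' (by
    intro i h1
    apply h0 i
    ext j
    have := congrFun h1 j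
    simp only [hΛ', Pi.zero_apply] at this
    simp only [Pi.zero_apply]
    exact (mul_eq_zero.1 this).resolve_left (hs0 i)) (by
    intro i j hij a b hab
    have h1 := hΛ i j hij (a * s i) (b * s j) (by
      ext l
      have := congrFun hab l
      simp only [hΛ', Pi.smul_apply, smul_eq_mul] at this ⊢
      linarith)
    exact ⟨(mul_eq_zero.1 h1.1).resolve_right (hs0 i), (mul_eq_zero.1 h1.2).resolve_right (hs0 j)⟩) hε
  obtain ⟨X2, h2⟩ := hsm 1 (Or.inl rfl) η hη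
  obtain ⟨X3, h3⟩ := hsm (-1) (Or.inr rfl) η hη
  refine ⟨X1 + X2 + X3, fun S hS φ hφ X hX c M N hM hN P P' hP => ?_⟩
  rw [Cn_eq Λ c hs]
  unfold Wn
  have hind1 : ∀ (s : ℤ) (T : Set ℤ) (n : ℤ), |ind s T n| ≤ 1 := by
    intro s T n
    rw [abs_of_nonneg (ind_nonneg _ _ _)]
    exact ind_le_one _ _ _
  have e2 : ∀ i, (fun n => win (M i) (N i) (ind (s i) (S i)) n - win (M i) (N i) (sph (s i) (φ i)) n)
      = win (M i) (N i) (balD (s i) (S i) (φ i)) := by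
    intro i
    ext n
    unfold win balD sph
    split_ifs <;> ring
  have hmem : ∀ i, balD (s i) (S i) (φ i) ∈ BD d (s i) := fun i => ⟨S i, hS i, φ i, hφ i, rfl⟩
  refine h X (by omega) (fun i => s i * c i) P P' hP (fun i => win (M i) (N i) (ind (s i) (S i)))
    (fun i => win (M i) (N i) (sph (s i) (φ i))) (fun i => win_abs (hind1 _ _) _ _)
    (fun i => win_abs (sph_abs (hφ i)) _ _) ?_ ?_ ?_
  · intro i
    rw [e2]
    exact win_abs (fun n => BD_abs (hmem i) n) _ _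
  · intro i
    rw [e2]
    exact win_sup _ _ (hN i)
  · intro i
    rw [e2]
    have hm := hmem i
    rcases hs i with hh | hh
    · rw [hh] at hm ⊢
      exact h2 X (by omega) _ hm _ _ (hM i) (hN i)
    · rw [hh] at hm ⊢
      exact h3 X (by omega) _ hm _ _ (hM i) (hN i)

/-- the points of the box at which the forms have values of sign `s` in the intervals -/
theorem Wn_eq {D r : ℕ} (Λ : Fin r → Fin D → ℤ) (c : Fin r → ℤ) {s : Fin r → ℤ} (hs : ∀ i, s i = 1 ∨ s i = -1) (M N : Fin r → ℕ)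
    (P P' : Fin D → ℤ) (φ : Fin r → ℤ → ℝ) :
    Wn Λ c s M N P P' φ = ∑ᶠ x ∈ {x : Fin D → ℤ | (∀ j, P j < x j ∧ x j ≤ P' j) ∧ ∀ i, (∑ j, Λ i j * x j + c i) ∈ (Set.univ : Set ℤ) ∧
    (M i : ℤ) < s i * (∑ j, Λ i j * x j + c i) ∧ s i * (∑ j, Λ i j * x j + c i) ≤ N i}, ∏ i, φ i (∑ j, Λ i j * x j + c i) := by
  classical
  have e1 : {x : Fin D → ℤ | (∀ j, P j < x j ∧ x j ≤ P' j) ∧ ∀ i, (∑ j, Λ i j * x j + c i) ∈ (Set.univ : Set ℤ) ∧
      (M i : ℤ) < s i * (∑ j, Λ i j * x j + c i) ∧ s i * (∑ j, Λ i j * x j + c i) ≤ N i}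
      = ((box P P').filter (fun x : Fin D → ℤ => ∀ i, (M i : ℤ) < s i * (∑ j, Λ i j * x j + c i) ∧
        s i * (∑ j, Λ i j * x j + c i) ≤ N i) : Finset (Fin D → ℤ)) := by
    ext x
    rw [Finset.mem_coe, mem_filter, mem_box]
    constructor
    · rintro ⟨h1, h2⟩
      exact ⟨h1, fun i => (h2 i).2⟩
    · rintro ⟨h1, h2⟩
      exact ⟨h1, fun i => ⟨Set.mem_univ _, h2 i⟩⟩
  rw [e1, finsum_mem_coe_finset, sum_filter]
  unfold Wn
  apply sum_congr rfl
  intro x _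
  have e3 : ∀ i, dot (fun j => s i * Λ i j) x + s i * c i = s i * (∑ j, Λ i j * x j + c i) := by
    intro i
    unfold dot
    rw [mul_add, mul_sum]
    congr 1
    apply sum_congr rfl; intro j _; ring
  have e2 : ∀ i, win (M i) (N i) (sph (s i) (φ i)) (dot (fun j => s i * Λ i j) x + s i * c i)
      = if (M i : ℤ) < s i * (∑ j, Λ i j * x j + c i) ∧ s i * (∑ j, Λ i j * x j + c i) ≤ N i then φ i (∑ j, Λ i j * x j + c i) else 0 := by
    intro i
    rw [e3]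
    unfold win sph
    have : s i * (s i * (∑ j, Λ i j * x j + c i)) = ∑ j, Λ i j * x j + c i := by
      rcases hs i with h | h <;> rw [h] <;> ring
    rw [this]
  simp only [e2]
  by_cases h : ∀ i, (M i : ℤ) < s i * (∑ j, Λ i j * x j + c i) ∧ s i * (∑ j, Λ i j * x j + c i) ≤ N i
  · rw [if_pos h]
    apply prod_congr rfl
    intro i _
    rw [if_pos (h i)]
  · rw [if_neg h]
    push Not at h
    obtain ⟨i, h2⟩ := h
    apply prod_eq_zero (mem_univ i)
    rw [if_neg]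
    rintro ⟨b2, b3⟩
    have := h2 b2
    omega

/-- many points of a residue class at which the forms are of sign `s` -/
theorem pts_class {D r : ℕ} (Λ : Fin r → Fin D → ℤ) {k : ℕ} (hk : 1 ≤ k) (v : Fin D → ℤ) {s : ℤ} (hs : s = 1 ∨ s = -1)
    (hv : ∀ i, 0 < s * dot (Λ i) v) :
    ∃ κ : ℝ, 0 < κ ∧ ∃ N0 : ℕ, ∀ N : ℕ, N0 ≤ N → ∃ T : Finset (Fin D → ℤ), κ * (N : ℝ) ^ D ≤ T.card ∧
      ∀ x ∈ T, (∀ j, (-(N : ℤ)) < x j ∧ x j ≤ N) ∧ (∀ i, 0 < s * dot (Λ i) x ∧ s * dot (Λ i) x ≤ N) ∧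
        ∀ i, (k : ℤ) ∣ dot (Λ i) v - dot (Λ i) x := by
  classical
  obtain ⟨κ, hκ, N1, h1⟩ := pts_lower Λ (fun j => s * v j) (by
    intro i
    have : dot (Λ i) (fun j => s * v j) = s * dot (Λ i) v := by
      unfold dot
      rw [mul_sum]
      apply sum_congr rfl; intro j _; ring
    rw [this]
    exact hv i) hs
  obtain ⟨V, hV⟩ : ∃ V : ℕ, V = ∑ j, (v j).natAbs + ∑ i, (dot (Λ i) v).natAbs := ⟨_, rfl⟩
  have hV1 : ∀ j, |v j| ≤ V := by
    intro j
    have h2 : (v j).natAbs ≤ ∑ j, (v j).natAbs := single_le_sum (f := fun j => (v j).natAbs) (fun _ _ => Nat.zero_le _) (mem_univ j)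
    rw [Int.abs_eq_natAbs]; omega
  have hV2 : ∀ i, |dot (Λ i) v| ≤ V := by
    intro i
    have h2 : (dot (Λ i) v).natAbs ≤ ∑ i, (dot (Λ i) v).natAbs :=
      single_le_sum (f := fun i => (dot (Λ i) v).natAbs) (fun _ _ => Nat.zero_le _) (mem_univ i)
    rw [Int.abs_eq_natAbs]; omega
  have hkR : (0 : ℝ) < k := by exact_mod_cast hk
  refine ⟨κ * (1 / (4 * k)) ^ D, by positivity, 2 * V + 4 * k + 2 * k * N1, fun N hN => ?_⟩
  obtain ⟨N', hN'⟩ : ∃ N' : ℕ, N' = (N - V) / k := ⟨_, rfl⟩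
  have hk1 : N' * k ≤ N - V := by rw [hN']; exact Nat.div_mul_le_self _ _
  have hk2 : N - V < k * (N' + 1) := by rw [hN']; exact Nat.lt_mul_div_succ _ (by omega)
  have hN1 : N1 ≤ N' := by
    rw [hN', Nat.le_div_iff_mul_le (by omega)]
    have : N1 * k = k * N1 := Nat.mul_comm _ _
    nlinarith [Nat.zero_le (k * N1), Nat.sub_add_cancel (show V ≤ N by nlinarith [Nat.zero_le (k * N1)])]
  have hVN : V ≤ N := by nlinarith [Nat.zero_le (k * N1)]
  have hN3 : (N : ℝ) / (4 * k) ≤ N' := by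
    rw [div_le_iff₀ (by positivity)]
    have h2 : N ≤ V + k * (N' + 1) := by omega
    have h3 : 2 * V + 4 * k ≤ N := by nlinarith [Nat.zero_le (k * N1)]
    have h5 : N ≤ 4 * k * N' := by nlinarith
    have h4 : (N : ℝ) ≤ 4 * k * N' := by exact_mod_cast h5
    linarith
  have h2 := h1 N' hN1
  unfold Cn at h2
  set A : Set (Fin D → ℤ) := {x : Fin D → ℤ | (∀ j, (-(N' : ℤ)) < x j ∧ x j ≤ (N' : ℤ)) ∧ ∀ i, (∑ j, Λ i j * x j + (0 : Fin r → ℤ) i) ∈ (Set.univ : Set ℤ) ∧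
      ((0 : ℕ) : ℤ) < s * (∑ j, Λ i j * x j + (0 : Fin r → ℤ) i) ∧ s * (∑ j, Λ i j * x j + (0 : Fin r → ℤ) i) ≤ N'} with hA
  have hfin : A.Finite := by
    apply (Finset.finite_toSet (box (fun _ : Fin D => -(N' : ℤ)) (fun _ => (N' : ℤ)))).subset
    intro x hx
    rw [mem_coe, mem_box]
    exact hx.1
  refine ⟨hfin.toFinset.image (fun u j => v j + k * u j), ?_, ?_⟩
  · rw [card_image_of_injective, ← Set.ncard_eq_toFinset_card A hfin]
    · refine le_trans ?_ h2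
      rw [mul_assoc, ← mul_pow]
      apply mul_le_mul_of_nonneg_left _ hκ.le
      apply pow_le_pow_left₀ (by positivity)
      calc 1 / (4 * (k : ℝ)) * N = N / (4 * k) := by ring
        _ ≤ N' := hN3
    · intro u u' h
      ext j
      have h3 : v j + k * u j = v j + k * u' j := congrFun h j
      have hk0 : (k : ℤ) ≠ 0 := by exact_mod_cast (by omega : k ≠ 0)
      exact mul_left_cancel₀ hk0 (by linarith)
  · intro x hx
    rw [mem_image] at hx
    obtain ⟨u, hu, rfl⟩ := hx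
    rw [Set.Finite.mem_toFinset] at hu
    obtain ⟨hu1, hu2⟩ := hu
    have hk0 : (1 : ℤ) ≤ k := by exact_mod_cast hk
    have hkN : (k : ℤ) * N' + V ≤ N := by
      have : N' * k + V ≤ N := by omega
      have h3 : ((N' * k + V : ℕ) : ℤ) ≤ N := by exact_mod_cast this
      push_cast at h3
      linarith
    have e1 : ∀ i, dot (Λ i) (fun j => v j + k * u j) = dot (Λ i) v + k * dot (Λ i) u := by
      intro i
      unfold dot
      rw [mul_sum, ← sum_add_distrib]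
      apply sum_congr rfl; intro j _; ring
    refine ⟨fun j => ?_, fun i => ?_, fun i => ?_⟩
    · have h3 := hu1 j
      have h4 := abs_le.1 (hV1 j)
      constructor
      · have : (k : ℤ) * (-(N' : ℤ) + 1) ≤ k * u j := mul_le_mul_of_nonneg_left (by linarith [h3.1]) (by linarith)
        linarith [h4.1]
      · have : (k : ℤ) * u j ≤ k * N' := mul_le_mul_of_nonneg_left h3.2 (by linarith)
        linarith [h4.2]
    · have h3 := (hu2 i).2
      simp only [Pi.zero_apply, add_zero, Nat.cast_zero] at h3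
      have h4 : dot (Λ i) u = ∑ j, Λ i j * u j := rfl
      rw [← h4] at h3
      rw [e1]
      have h5 : s * (dot (Λ i) v + k * dot (Λ i) u) = s * dot (Λ i) v + k * (s * dot (Λ i) u) := by ring
      rw [h5]
      have h6 := hv i
      have h7 : s * dot (Λ i) v ≤ V := by
        refine (le_abs_self _).trans ?_
        rw [abs_mul]
        have : |s| = 1 := by rcases hs with rfl | rfl <;> simp
        rw [this, one_mul]
        exact hV2 i
      constructor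
      · have : 0 ≤ (k : ℤ) * (s * dot (Λ i) u) := mul_nonneg (by linarith) h3.1.le
        linarith
      · have : (k : ℤ) * (s * dot (Λ i) u) ≤ k * N' := mul_le_mul_of_nonneg_left h3.2 (by linarith)
        linarith
    · rw [e1]
      exact ⟨-dot (Λ i) u, by ring⟩

/-- many points at which all forms have values in given invariant sets -/
theorem many_ptsD {d : ℤ} (hd1 : 1 ≤ d.natAbs) {D r : ℕ} (hsm : ∀ s : ℤ, (s = 1 ∨ s = -1) → Sm (r + 1) (BD d s)) (Λ : Fin r → Fin D → ℤ)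
    (hΛ : ∀ i j, i ≠ j → Indep (Λ i) (Λ j)) (v : Fin D → ℤ) {s : ℤ} (hs : s = 1 ∨ s = -1) (hv : ∀ i, 0 < s * dot (Λ i) v)
    {S : Fin r → Set ℤ} (hS : ∀ i, Inv d (S i)) {φ : Fin r → ℤ → ℝ} (hφ : ∀ i, IsPhi d s (S i) (φ i))
    (hpos : ∀ i, 0 < φ i (dot (Λ i) v)) :
    ∃ κ : ℝ, 0 < κ ∧ ∃ N0 : ℕ, ∀ N : ℕ, N0 ≤ N →
      κ * (N : ℝ) ^ D ≤ Cn Λ 0 (fun _ => s) (fun _ => 0) (fun _ => N) (fun _ => -(N : ℤ)) (fun _ => (N : ℤ)) S := by
  obtain ⟨κ, hκ, N1, h1⟩ := pts_class Λ hd1 v hs hv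
  have hP : 0 < ∏ i, φ i (dot (Λ i) v) := prod_pos fun i _ => hpos i
  obtain ⟨Q, hQ⟩ : ∃ Q : ℝ, Q = ∏ i, φ i (dot (Λ i) v) := ⟨_, rfl⟩
  rw [← hQ] at hP
  have h0 : ∀ i, Λ i ≠ 0 := by
    intro i h
    have := hv i
    rw [h] at this
    unfold dot at this
    simp at this
  obtain ⟨N2, h2⟩ := countD hsm Λ h0 hΛ (s := fun _ => s) (fun _ => hs) (ε := Q * κ / (2 * 2 ^ D)) (by positivity)
  refine ⟨Q * κ / 2, by positivity, N1 + N2, fun N hN => ?_⟩
  have h3 := h2 S hS φ hφ (2 * N) (by omega) 0 (fun _ => 0) (fun _ => N) (fun _ => Nat.zero_le _) (fun _ => by omega)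
    (fun _ => -(N : ℤ)) (fun _ => (N : ℤ)) (fun _ => by push_cast; linarith)
  obtain ⟨T, hT1, hT2⟩ := h1 N (by omega)
  have h4 : Q * T.card ≤ Wn Λ 0 (fun _ => s) (fun _ => 0) (fun _ => N) (fun _ => -(N : ℤ)) (fun _ => (N : ℤ)) φ := by
    unfold Wn
    have e1 : Q * (T.card : ℝ) = ∑ x ∈ T, Q := by rw [sum_const, nsmul_eq_mul, mul_comm]
    rw [e1]
    have hsub : T ⊆ box (fun _ : Fin D => -(N : ℤ)) (fun _ => (N : ℤ)) := by
      intro x hx
      rw [mem_box]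
      exact (hT2 x hx).1
    have hnn : ∀ x, 0 ≤ ∏ i, win 0 N (sph s (φ i)) (dot (fun j => s * Λ i j) x + s * (0 : Fin r → ℤ) i) := by
      intro x
      apply prod_nonneg
      intro i _
      unfold win sph
      split_ifs
      · exact ((hφ i).1 _).1
      · exact le_rfl
    refine le_trans ?_ (sum_le_sum_of_subset_of_nonneg hsub fun x _ _ => hnn x)
    apply sum_le_sum
    intro x hx
    obtain ⟨-, g2, g3⟩ := hT2 x hx
    rw [hQ]
    apply le_of_eq
    apply prod_congr rfl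
    intro i _
    have e2 : dot (fun j => s * Λ i j) x + s * (0 : Fin r → ℤ) i = s * dot (Λ i) x := by
      unfold dot
      simp only [Pi.zero_apply, mul_zero, add_zero]
      rw [mul_sum]
      apply sum_congr rfl; intro j _; ring
    rw [e2]
    unfold win sph
    rw [if_pos (by push_cast; exact g2 i)]
    have e3 : s * (s * dot (Λ i) x) = dot (Λ i) x := by rcases hs with rfl | rfl <;> ring
    rw [e3]
    apply (hφ i).2.1
    exact rel_of_dvd (Int.natAbs_dvd.1 (g3 i))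
  have h5 := (abs_le.1 h3).1
  have h6 := mul_le_mul_of_nonneg_left hT1 hP.le
  have h7 : Q * κ / (2 * 2 ^ D) * ((2 * N : ℕ) : ℝ) ^ D = Q * κ / 2 * (N : ℝ) ^ D := by
    push_cast
    rw [mul_pow]
    field_simp
  rw [h7] at h5
  nlinarith

end Pool.Agent.W36.GL
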